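import Pool.Agent.H39.GEN.Blow

/-!
# Uniform freedom from the window

The micro input in the form of cells gives more than the limit form of `WfN` at one row: all
rows near `Q` are free from the window, uniformly and at every small scale. With this form of the
hypothesis of the static theorem the level of the target is affine on a whole triangle at every
point where the diagonal threshold is differentiable, no matter what the other levels do.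
-/

set_option autoImplicit false

namespace Pool.STR

open MeasureTheory Set Filter Topology Pool.LEV
open scoped ENNReal

/-- The thresholds of all rows near `Q` do not depend on the window, uniformly, at every small
scale. -/
def WfU (P : ℝ → ℝ → ℝ) (Q : ℝ) : Prop :=
  ∀ ε : ℝ, 0 < ε → ∃ r₁ : ℝ, 0 < r₁ ∧ ∀ r : ℝ, 0 < r → r < r₁ → ∀ Q' : ℝ, |Q' - Q| ≤ r →
    Lv P (Q', r) - Lv P (Q', 0) ≤ ε * r

theorem WfU.wfN {P : ℝ → ℝ → ℝ} {Q : ℝ} (h : WfU P Q) : WfN P Q := by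
  intro ε hε
  obtain ⟨r₁, hr₁, h1⟩ := h ε hε
  refine ⟨r₁, hr₁, fun q hq hq' => h1 q hq hq' Q ?_⟩
  rw [sub_self, abs_zero]
  exact hq.le

/-- **(S)** in the uniform form. -/
def StaU (P : ℝ → ℝ → ℝ) (ρ : ℝ → ℝ) : Prop :=
  ∀ h : ℝ, 0 < h → ∀ᵐ Q : ℝ, 0 < Q → Q < 1 → 0 < Lv P (Q, 0) →
    DifferentiableAt ℝ (fun Q => Lv P (Q, 0)) Q → 0 < deriv (fun Q => Lv P (Q, 0)) Q →
    WfU P Q → DifferentiableAt ℝ ρ Q → 1 - h ≤ deriv ρ Q

/-- **The micro input gives uniform freedom from the window.** -/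
theorem wfu_of_micB {P : ℝ → ℝ → ℝ} (hP : Law P) {ρ : ℝ → ℝ} (hM : MicB P ρ) :
    ∀ᵐ Q : ℝ, 0 < Q → Q < 1 → 0 < Lv P (Q, 0) →
      DifferentiableAt ℝ (fun Q => Lv P (Q, 0)) Q → 0 < deriv (fun Q => Lv P (Q, 0)) Q →
      DifferentiableAt ℝ ρ Q → deriv ρ Q < 1 → WfU P Q := by
  have hn : ∀ n : ℕ, (0 : ℝ) < 1 / ((n : ℝ) + 1) := fun n => by positivity
  have hM' : ∀ n m : ℕ, ∀ᵐ Q : ℝ, 0 < Q → Q < 1 → 0 < Lv P (Q, 0) →
      DifferentiableAt ℝ (fun Q => Lv P (Q, 0)) Q → 0 < deriv (fun Q => Lv P (Q, 0)) Q →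
      DifferentiableAt ℝ ρ Q → deriv ρ Q < 1 - 1 / ((n : ℝ) + 1) →
      ∃ r₁ : ℝ, 0 < r₁ ∧ ∀ r : ℝ, 0 < r → r < r₁ → ∀ Q' : ℝ, |Q' - Q| ≤ r →
        Lv P (Q', r) - Lv P (Q', 0) < 1 / ((m : ℝ) + 1) * r := by
    intro n m
    obtain ⟨ε, hε, h1⟩ := hM (1 / ((n : ℝ) + 1)) (1 / ((m : ℝ) + 1) / 2) (hn n) (half_pos (hn m))
    obtain ⟨δ, hδ, h2⟩ := blow (hn m) hε
    filter_upwards [h1 (δ / 2) (half_pos hδ)] with Q hQ a b c d e f g
    obtain ⟨r₁, hr₁, h3⟩ := hQ a b c d e f g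
    refine ⟨r₁ / 2, half_pos hr₁, fun r hr0 hr Q' hQ' => ?_⟩
    by_contra hc
    push Not at hc
    obtain ⟨p, X, al, be, e1, e2, e3, e4, e5, e6, e7, e8⟩ :=
      h2 (Lv P) (Lv_lip hP) (Lv_mono hP) Q' r hr0 hc
    refine h3 (2 * r) (by linarith) (by linarith) p X al be ?_ (by linarith) e3 (by linarith)
      e5 e6 e7 e8
    have := abs_sub_le p.1 Q' Q
    linarith
  filter_upwards [ae_all_iff.2 fun n => ae_all_iff.2 (hM' n)] with Q k1 a b c d e f g ε hε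
  obtain ⟨n, hn'⟩ := exists_nat_one_div_lt (sub_pos.2 g)
  obtain ⟨m, hm⟩ := exists_nat_one_div_lt hε
  obtain ⟨r₁, hr₁, h4⟩ := k1 n m a b c d e f (by linarith)
  refine ⟨r₁, hr₁, fun r hr hr' Q' hQ' => ?_⟩
  have h5 := h4 r hr hr' Q' hQ'
  have h6 : 1 / ((m : ℝ) + 1) * r ≤ ε * r := mul_le_mul_of_nonneg_right hm.le hr.le
  linarith

/-- Almost all rows of macroscopic windows are full, uniform form of the static input. -/
theorem fullU {P : ℝ → ℝ → ℝ} (hP : Law P) {ρ : ℝ → ℝ} (hJ : JmpN P ρ) (hM : MicB P ρ)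
    (hS : StaU P ρ) : ∀ᵐ Q : ℝ, 0 < Q → Q < 1 → 0 < Lv P (Q, 0) → DifferentiableAt ℝ ρ Q →
      1 ≤ deriv ρ Q := by
  have hn : ∀ n : ℕ, (0 : ℝ) < 1 / ((n : ℝ) + 1) := fun n => by positivity
  have hg : ∀ᵐ Q : ℝ, DifferentiableAt ℝ (fun Q => Lv P (Q, 0)) Q := by
    have : LipschitzWith 1 (fun Q => Lv P (Q, 0)) := by
      refine LipschitzWith.of_dist_le_mul fun x y => ?_
      refine ((Lv_lip hP).dist_le_mul _ _).trans ?_
      rw [Prod.dist_eq]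
      simp
    exact this.ae_differentiableAt_real
  have hgm : Monotone (fun Q => Lv P (Q, 0)) := fun x y hxy => Lv_mono hP ⟨hxy, le_rfl⟩
  filter_upwards [wfu_of_micB hP hM, hg, ae_all_iff.2 fun n => hJ _ (hn n),
    ae_all_iff.2 fun n => hS _ (hn n)] with Q k1 k2 k3 k4 h0 h1 hw hd
  by_contra hcon
  push Not at hcon
  obtain ⟨n, hn'⟩ := exists_nat_one_div_lt (sub_pos.2 hcon)
  have h2 : deriv ρ Q < 1 - 1 / ((n : ℝ) + 1) := by linarith
  have hg0 : 0 ≤ deriv (fun Q => Lv P (Q, 0)) Q := hgm.deriv_nonneg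
  rcases eq_or_lt_of_le hg0 with h3 | h3
  · exact absurd (k3 n h0 h1 hw k2 h3.symm hd) (not_le.2 h2)
  · exact absurd (k4 n h0 h1 hw k2 h3 (k1 h0 h1 hw k2 h3 hd hcon) hd) (not_le.2 h2)

/-- **The assembly**, with the uniform form of the static input. -/
theorem rowsU {P : ℝ → ℝ → ℝ} (hP : Law P) {ρ : ℝ → ℝ} {w : ℝ} (hw : 0 < w) (hw1 : w ≤ 1)
    (hG0 : 0 ≤ P w w) (hG : P w w ≤ 1) (hr : MonotoneOn ρ (Icc (P w w) 1)) (hJ : JmpN P ρ)
    (hM : MicB P ρ) (hS : StaU P ρ) : 1 - P w w ≤ ρ 1 - ρ (P w w) := by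
  refine cost hr hG ?_
  filter_upwards [fullU hP hJ hM hS] with Q hQ h1 h2 hd
  have h0 : 0 < Q := hG0.trans_lt h1
  refine hQ h0 h2 ?_ hd
  rw [Lv_eq le_rfl zero_le_one h0.le h2.le]
  refine lt_of_lt_of_le hw (le_csInf ⟨1, one_mem zero_le_one⟩ ?_)
  rintro a ⟨a1, a2, a3⟩
  by_contra hc
  push Not at hc
  rcases a3 with a3 | a3
  · rw [sub_zero] at a3
    have := hP.mono a1 le_rfl hc.le hc.le le_rfl hw1
    linarith
  · linarith

end Pool.STR
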