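import Pool.Agent.H67.GEN.WfU
import Pool.Agent.H99.GEN.Sel

/-!
# The triangle below a window free row

At a row `Q` with the uniform form of freedom from the window, the threshold of the target is
affine, up to `o(r)`, on the whole triangle of radii and windows between `a - r` and `a + r`,
`a = Lv P (Q, 0)`, with the slope of the diagonal. No concavity is used.
-/

set_option autoImplicit false

namespace Pool.STR

open MeasureTheory Set Filter Topology Pool.LEV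
open scoped ENNReal

/-- **The triangle.** -/
theorem tri {P : ℝ → ℝ → ℝ} (h : Law P) {Q a s : ℝ} (h0 : 0 < Q) (h1 : Q < 1) (ha : 0 < a)
    (ha1 : a < 1) (hval : P a a = Q) (hs : 0 ≤ s) (hd : HasDerivAt (fun a => P a a) s a)
    (hw : WfU P Q) {ε : ℝ} (hε : 0 < ε) : ∃ r₁ : ℝ, 0 < r₁ ∧ ∀ r : ℝ, 0 < r → r < r₁ →
      ∀ a' w' : ℝ, a - r ≤ w' → w' ≤ a' → a' ≤ a + r →
        |P a' w' - P a a - s * (a' - a)| ≤ ε * r := by
  obtain ⟨C, hC⟩ : ∃ C : ℝ, C = 2 * (s + 1) := ⟨_, rfl⟩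
  have hC2 : 2 ≤ C := by rw [hC]; linarith
  obtain ⟨ε₁, he₁⟩ : ∃ e : ℝ, e = min 1 (ε / 8) := ⟨_, rfl⟩
  have he0 : 0 < ε₁ := by rw [he₁]; exact lt_min one_pos (by linarith)
  have he1 : ε₁ ≤ 1 := by rw [he₁]; exact min_le_left _ _
  have he8 : ε₁ ≤ ε / 8 := by rw [he₁]; exact min_le_right _ _
  obtain ⟨η, hη⟩ : ∃ η : ℝ, η = min 1 (ε / (4 * (s + 1))) := ⟨_, rfl⟩
  have hη0 : 0 < η := by rw [hη]; exact lt_min one_pos (by positivity)
  have hη1 : η ≤ 1 := by rw [hη]; exact min_le_left _ _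
  have hηs : s * η ≤ ε / 4 := by
    have h2 : η ≤ ε / (4 * (s + 1)) := by rw [hη]; exact min_le_right _ _
    calc s * η ≤ s * (ε / (4 * (s + 1))) := mul_le_mul_of_nonneg_left h2 hs
      _ = ε / 4 * (s / (s + 1)) := by field_simp
      _ ≤ ε / 4 * 1 := by
          refine mul_le_mul_of_nonneg_left ?_ (by linarith)
          rw [div_le_one (by linarith)]
          linarith
      _ = ε / 4 := mul_one _
  obtain ⟨rU, hrU, HU⟩ := hw (η / (2 * C)) (by positivity)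
  -- the derivative
  have hnb := (Asymptotics.isLittleO_iff.1 hd.isLittleO) he0
  rw [Metric.eventually_nhds_iff] at hnb
  obtain ⟨δ, hδ, hdd⟩ := hnb
  have key : ∀ x : ℝ, |x - a| < δ → |P x x - P a a - s * (x - a)| ≤ ε₁ * |x - a| := by
    intro x hx
    have := hdd (y := x) (by rw [Real.dist_eq]; exact hx)
    rw [Real.norm_eq_abs, Real.norm_eq_abs, smul_eq_mul, mul_comm (x - a) s] at this
    exact this
  have hm : 0 < min (δ / 2) (min (min (a / 2) ((1 - a) / 2)) (min (rU / C)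
      (min (1 / C) (min (Q / C) ((1 - Q) / C))))) := by
    refine lt_min (half_pos hδ) (lt_min (lt_min (by linarith) (by linarith))
      (lt_min (by positivity) (lt_min (by positivity) (lt_min (by positivity) ?_))))
    exact div_pos (by linarith) (by linarith)
  refine ⟨_, hm, fun r hr hrm a' w' hw1 hw2 hw3 => ?_⟩
  have b1 : r < δ / 2 := lt_of_lt_of_le hrm (min_le_left _ _)
  have b2 := lt_of_lt_of_le hrm (min_le_right _ _)
  have b3 : r < a / 2 := lt_of_lt_of_le b2 ((min_le_left _ _).trans (min_le_left _ _))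
  have b4 : r < (1 - a) / 2 := lt_of_lt_of_le b2 ((min_le_left _ _).trans (min_le_right _ _))
  have b5 := lt_of_lt_of_le b2 (min_le_right _ _)
  have hCp : 0 < C := by linarith
  have c1 : C * r < rU := by
    have := lt_of_lt_of_le b5 (min_le_left _ _)
    rw [lt_div_iff₀ hCp] at this
    linarith
  have b6 := lt_of_lt_of_le b5 (min_le_right _ _)
  have c2 : C * r < 1 := by
    have := lt_of_lt_of_le b6 (min_le_left _ _)
    rw [lt_div_iff₀ hCp] at this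
    linarith
  have b7 := lt_of_lt_of_le b6 (min_le_right _ _)
  have c3 : C * r < Q := by
    have := lt_of_lt_of_le b7 (min_le_left _ _)
    rw [lt_div_iff₀ hCp] at this
    linarith
  have c4 : C * r < 1 - Q := by
    have := lt_of_lt_of_le b7 (min_le_right _ _)
    rw [lt_div_iff₀ hCp] at this
    linarith
  have hw0 : 0 ≤ w' := by linarith
  have ha'1 : a' ≤ 1 := by linarith
  have habs : |a' - a| ≤ r := by
    rw [abs_le]
    constructor <;> linarith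
  have hεr : 0 < ε * r := mul_pos hε hr
  rw [abs_le]
  constructor
  · -- lower bound
    obtain ⟨a'', ha''⟩ : ∃ x : ℝ, x = a' - η * r := ⟨_, rfl⟩
    have hηr : η * r ≤ r := by nlinarith
    have hηr0 : 0 < η * r := mul_pos hη0 hr
    have d1 : |a'' - a| ≤ 2 * r := by
      rw [ha'', abs_le]
      obtain ⟨u1, u2⟩ := abs_le.1 habs
      constructor <;> linarith
    obtain ⟨d2, d3⟩ := abs_le.1 d1
    have d4 := key a'' (by linarith)
    have d5 : ε₁ * |a'' - a| ≤ ε₁ * (2 * r) := mul_le_mul_of_nonneg_left d1 he0.le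
    obtain ⟨d6, d7⟩ := abs_le.1 (d4.trans d5)
    obtain ⟨Q', hQ'⟩ : ∃ x : ℝ, x = P a'' a'' := ⟨_, rfl⟩
    have d8 : |Q' - Q| ≤ C * r := by
      rw [hQ', ← hval, abs_le, hC]
      have f1 : s * (a'' - a) ≤ s * (2 * r) := mul_le_mul_of_nonneg_left d3 hs
      have f2 : s * (-(2 * r)) ≤ s * (a'' - a) := mul_le_mul_of_nonneg_left d2 hs
      have f3 : ε₁ * (2 * r) ≤ 1 * (2 * r) := mul_le_mul_of_nonneg_right he1 (by linarith)
      constructor <;> nlinarith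
    obtain ⟨d9, d10⟩ := abs_le.1 d8
    have e1 := HU (C * r) (mul_pos hCp hr) c1 Q' d8
    have e2 : η / (2 * C) * (C * r) = η * r / 2 := by
      field_simp
    rw [e2] at e1
    have hQ0 : 0 ≤ Q' := by linarith
    have hQ1 : Q' ≤ 1 := by linarith
    have e3 : Lv P (Q', 0) ≤ a'' := by
      rw [Lv_eq le_rfl zero_le_one hQ0 hQ1]
      refine lev_le ⟨by linarith, by linarith, Or.inl ?_⟩
      rw [sub_zero, hQ']
    have e4 : Lv P (Q', a' - w') ≤ Lv P (Q', C * r) :=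
      Lv_mono h ⟨le_rfl, by
        show a' - w' ≤ C * r
        nlinarith⟩
    have e5 : Lv P (Q', a' - w') < a' := by
      rw [ha''] at e3
      linarith
    rw [Lv_eq (by linarith) (by nlinarith) hQ0 hQ1] at e5
    have e6 := le_of_lev_lt h (by linarith) (by nlinarith) e5 ha'1
    rw [sub_sub_cancel, hQ'] at e6
    have e7 : s * (a'' - a) = s * (a' - a) - s * η * r := by
      rw [ha'']
      ring
    have e8 : s * η * r ≤ ε / 4 * r := mul_le_mul_of_nonneg_right hηs hr.le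
    have e9 : ε₁ * (2 * r) ≤ ε / 8 * (2 * r) := mul_le_mul_of_nonneg_right he8 (by linarith)
    rw [e7] at d6
    linarith
  · have f1 := h.mono_w a' w' a' hw0 hw2 le_rfl ha'1
    have f2 := key a' (by linarith)
    have f3 : ε₁ * |a' - a| ≤ ε / 8 * r :=
      mul_le_mul he8 habs (abs_nonneg _) (by linarith)
    have f4 := (abs_le.1 (f2.trans f3)).2
    linarith

/-- A good point with the triangle: row `Q`, radius `a`, slopes `sN` and `s`. -/
structure PtU {ι : Type*} (P : ℝ → ℝ → ℝ) (L : ι → ℝ → ℝ → ℝ) (Z : Set ℝ) (Q a sN : ℝ)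
    (s : ι → ℝ) : Prop where
  pos : 0 < a
  lt : a < 1
  nz : a ∉ Z
  val : P a a = Q
  der : HasDerivAt (fun a => P a a) sN a
  ge : 1 ≤ sN
  derV : ∀ i, HasDerivAt (fun a => L i a a) (s i) a
  geV : ∀ i, L i a a < 1 → 1 ≤ s i
  tri : ∀ ε : ℝ, 0 < ε → ∃ r₁ : ℝ, 0 < r₁ ∧ ∀ r : ℝ, 0 < r → r < r₁ →
    ∀ a' w' : ℝ, a - r ≤ w' → w' ≤ a' → a' ≤ a + r → |P a' w' - Q - sN * (a' - a)| ≤ ε * r

/-- **Almost every row** of the uniform static input is a good point with the triangle. -/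
theorem ae_ptU {ι : Type*} [Countable ι] {P : ℝ → ℝ → ℝ} (hP : Law P) {L : ι → ℝ → ℝ → ℝ}
    (hL : ∀ i, Law (L i)) {Z : Set ℝ} (hZ : volume Z = 0) :
    ∀ᵐ Q : ℝ, 0 < Q → Q < 1 → 0 < Lv P (Q, 0) →
      DifferentiableAt ℝ (fun Q => Lv P (Q, 0)) Q → 0 < deriv (fun Q => Lv P (Q, 0)) Q →
      WfU P Q → PtU P L Z Q (Lv P (Q, 0)) (deriv (fun Q => Lv P (Q, 0)) Q)⁻¹
        (fun i => deriv (fun a => L i a a) (Lv P (Q, 0))) := by
  filter_upwards [ae_pt hP hL hZ] with Q hQ h0 h1 hw hd hd0 hU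
  have hp := hQ h0 h1 hw hU.wfN hd hd0.ne'
  refine ⟨hp.pos, hp.lt, hp.nz, hp.val, hp.der, hp.ge, hp.derV, hp.geV, fun ε hε => ?_⟩
  obtain ⟨r₁, hr₁, H⟩ := tri hP h0 h1 hp.pos hp.lt hp.val (zero_le_one.trans hp.ge) hp.der hU hε
  refine ⟨r₁, hr₁, fun r hr hr' a' w' k1 k2 k3 => ?_⟩
  have := H r hr hr' a' w' k1 k2 k3
  rwa [hp.val] at this

/-- **The static input from good points.** -/
theorem staU_of {ι : Type*} [Countable ι] {P : ℝ → ℝ → ℝ} (hP : Law P) {L : ι → ℝ → ℝ → ℝ}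
    (hL : ∀ i, Law (L i)) {Z : Set ℝ} (hZ : volume Z = 0) {ρ : ℝ → ℝ}
    (H : ∀ h : ℝ, 0 < h → ∀ᵐ Q : ℝ, 0 < Q → Q < 1 → ∀ (a sN : ℝ) (s : ι → ℝ),
      a = Lv P (Q, 0) → PtU P L Z Q a sN s → DifferentiableAt ℝ ρ Q → 1 - h ≤ deriv ρ Q) :
    StaU P ρ := by
  intro h hh
  filter_upwards [ae_ptU hP hL hZ, H h hh] with Q h2 h3 h0 h1 hw hd hd0 hU hr
  exact h3 h0 h1 _ _ _ rfl (h2 h0 h1 hw hd hd0 hU) hr

/-- **The static input from cells.** A cell may have its centre anywhere near the radius. -/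
theorem staU_of_cell {ι π : Type*} [Countable ι] [Countable π] {P : ℝ → ℝ → ℝ} (hP : Law P)
    {L : ι → ℝ → ℝ → ℝ} (hL : ∀ i, Law (L i)) {Z : Set ℝ} (hZ : volume Z = 0) {ρ : ℝ → ℝ}
    {Cell : π → ℝ → ℝ → ℝ → Prop}
    (hC : ∀ Q a sN s, 0 < Q → Q < 1 → PtU P L Z Q a sN s →
      ∃ p : π, ∀ ε r₁ : ℝ, 0 < ε → 0 < r₁ → ∃ r a' : ℝ, 0 < r ∧ r < r₁ ∧ |a' - a| ≤ r ∧
        Cell p a' r ε)
    (hS : ∀ (h : ℝ) (p : π), 0 < h → ∃ ε : ℝ, 0 < ε ∧ ∀ᵐ Q : ℝ, 0 < Q → Q < 1 →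
      0 < Lv P (Q, 0) → DifferentiableAt ℝ ρ Q → deriv ρ Q < 1 - h →
      ∃ r₁ : ℝ, 0 < r₁ ∧ ∀ r a' : ℝ, 0 < r → r < r₁ → |a' - Lv P (Q, 0)| ≤ r →
        ¬ Cell p a' r ε) :
    StaU P ρ := by
  have hn : ∀ n : ℕ, (0 : ℝ) < 1 / ((n : ℝ) + 1) := fun n => by positivity
  refine staU_of hP hL hZ fun h hh => ?_
  choose e he0 he using fun p => hS h p hh
  filter_upwards [ae_all_iff.2 he] with Q hQ h0 h1 a sN s haQ hp hr
  by_contra hc
  push Not at hc
  obtain ⟨p, hp'⟩ := hC Q a sN s h0 h1 hp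
  obtain ⟨r₁, hr₁, H⟩ := hQ p h0 h1 (by rw [← haQ]; exact hp.pos) hr hc
  obtain ⟨r, a', k1, k2, k3, k4⟩ := hp' (e p) r₁ (he0 p) hr₁
  rw [haQ] at k3
  exact H r a' k1 k2 k3 k4

end Pool.STR
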