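import Mathlib

/-!
# Concavity of thresholds from the path-fit inequality

`Pth P w W`: for every base `a`, every `k` and all `0 ≤ u ≤ v` with `[a, a + v]` in `[w, W]`, the
function `P` grows on `[a, a + u]` by at least `min (P (a+v) - P a - k (v-u)) ((k+1) u - ρ)`, if
`ρ` bounds `k s - (P (a+s) - P a)` for `s ≤ v`. A nondecreasing function with this property is
concave, and its slopes are natural numbers.
-/

set_option autoImplicit false

namespace Pool.LmC

open Set

/-- The path-fit inequality. -/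
def Pth (P : ℝ → ℝ) (w W : ℝ) : Prop :=
  ∀ (a v u : ℝ) (k : ℕ) (ρ : ℝ), w ≤ a → 0 ≤ u → u ≤ v → a + v ≤ W → 0 ≤ ρ →
    (∀ s, 0 ≤ s → s ≤ v → k * s - (P (a + s) - P a) ≤ ρ) →
    min (P (a + v) - P a - k * (v - u)) ((k + 1) * u - ρ) ≤ P (a + u) - P a

variable {P : ℝ → ℝ} {w W : ℝ}

/-- **Floor property.** If the mean slope on `[a, a + v]` is larger than `k`, then it is at least
`k` on all initial segments. -/
theorem floor_prop (hm : MonotoneOn P (Icc w W)) (h : Pth P w W) {a v : ℝ} {k : ℕ} (ha : w ≤ a)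
    (hv : 0 ≤ v) (hW : a + v ≤ W) (hk : k * v < P (a + v) - P a) :
    ∀ s, 0 ≤ s → s ≤ v → k * s ≤ P (a + s) - P a := by
  intro s₀ hs₀ hs₀v
  by_contra hcon
  push Not at hcon
  have hmon : ∀ s t, 0 ≤ s → s ≤ t → t ≤ v → P (a + s) ≤ P (a + t) := fun s t hs hst ht =>
    hm ⟨by linarith, by linarith⟩ ⟨by linarith, by linarith⟩ (by linarith)
  rcases Nat.eq_zero_or_pos k with hk0 | hk0
  · subst hk0
    have := hmon 0 s₀ le_rfl hs₀ hs₀v
    simp only [add_zero] at this
    simp only [Nat.cast_zero, zero_mul] at hcon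
    linarith
  have hkr : (0 : ℝ) < k := by exact_mod_cast hk0
  obtain ⟨ψ, hψ⟩ : ∃ ψ : ℝ → ℝ, ψ = fun s => P (a + s) - P a - k * s := ⟨_, rfl⟩
  have hψs : ∀ s, P (a + s) - P a = ψ s + k * s := fun s => by rw [hψ]; ring
  have hlow : ∀ s, 0 ≤ s → s ≤ v → -(k * s) ≤ ψ s := by
    intro s hs hsv
    have := hmon 0 s le_rfl hs hsv
    simp only [add_zero] at this
    have e := hψs s
    linarith
  obtain ⟨μ, hμ⟩ : ∃ μ, μ = sInf (ψ '' Icc 0 v) := ⟨_, rfl⟩
  have hne : (ψ '' Icc 0 v).Nonempty := ⟨_, 0, ⟨le_rfl, hv⟩, rfl⟩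
  have hbd : BddBelow (ψ '' Icc 0 v) := by
    refine ⟨-(k * v), ?_⟩
    rintro _ ⟨s, ⟨hs, hsv⟩, rfl⟩
    have := hlow s hs hsv
    nlinarith
  have hμle : ∀ s, 0 ≤ s → s ≤ v → μ ≤ ψ s := fun s hs hsv => by
    rw [hμ]
    exact csInf_le hbd ⟨s, ⟨hs, hsv⟩, rfl⟩
  have hμneg : μ < 0 := by
    have := hμle s₀ hs₀ hs₀v
    have e := hψs s₀
    linarith
  obtain ⟨ε, hε⟩ : ∃ ε, ε = -μ / (k + 1) := ⟨_, rfl⟩
  have hε0 : 0 < ε := by
    rw [hε]
    exact div_pos (by linarith) (by linarith)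
  have hε1 : ε * (k + 1) = -μ := by
    rw [hε]
    field_simp
  obtain ⟨_, ⟨s₁, ⟨hs₁, hs₁v⟩, rfl⟩, hs₁μ⟩ : ∃ x ∈ ψ '' Icc 0 v, x < μ + ε := by
    refine exists_lt_of_csInf_lt hne ?_
    rw [← hμ]
    linarith
  have h1 : ε ≤ s₁ := by
    have h2 := hlow s₁ hs₁ hs₁v
    have h3 : ε * k < k * s₁ := by
      have : ε * k = -μ - ε := by linarith
      linarith
    have h4 : k * ε < k * s₁ := by linarith
    exact (lt_of_mul_lt_mul_left h4 hkr.le).le
  have key := h (a + s₁ - ε) (v - s₁ + ε) ε k (ψ (s₁ - ε) - μ) (by linarith) hε0.le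
    (by linarith) (by linarith) (by linarith [hμle (s₁ - ε) (by linarith) (by linarith)])
    (by
      intro s hs hsv
      have e1 : P (a + s₁ - ε + s) = P (a + (s₁ - ε + s)) := by congr 1; ring
      have e2 : P (a + s₁ - ε) = P (a + (s₁ - ε)) := by congr 1; ring
      have e3 := hψs (s₁ - ε + s)
      have e4 := hψs (s₁ - ε)
      have e5 := hμle (s₁ - ε + s) (by linarith) (by linarith)
      rw [e1, e2]
      nlinarith)
  have e1 : P (a + s₁ - ε + (v - s₁ + ε)) = P (a + v) := by congr 1; ring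
  have e2 : P (a + s₁ - ε) = P (a + (s₁ - ε)) := by congr 1; ring
  have e3 : P (a + s₁ - ε + ε) = P (a + s₁) := by congr 1; ring
  rw [e1, e2, e3] at key
  have f1 := hψs v
  have f2 := hψs (s₁ - ε)
  have f3 := hψs s₁
  have hψv : 0 < ψ v := by linarith
  have hψ1 : ψ s₁ < 0 := by
    have : μ + ε < 0 := by nlinarith
    linarith
  rcases min_le_iff.1 key with h5 | h5
  · nlinarith
  · nlinarith

/-- **Slopes.** If the mean slope on `[a, a + v]` is larger than `k`, then it is at least `k + 1`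
on short initial segments. -/
theorem slope_prop (hm : MonotoneOn P (Icc w W)) (h : Pth P w W) {a v : ℝ} {k : ℕ} (ha : w ≤ a)
    (hv : 0 ≤ v) (hW : a + v ≤ W) (hk : k * v < P (a + v) - P a) {u : ℝ} (hu : 0 ≤ u)
    (huv : u ≤ v) (hu' : u ≤ P (a + v) - P a - k * v) : (k + 1) * u ≤ P (a + u) - P a := by
  have h1 := floor_prop hm h ha hv hW hk
  have h2 := h a v u k 0 ha hu huv hW le_rfl (fun s hs hsv => by linarith [h1 s hs hsv])
  rcases min_le_iff.1 h2 with h3 | h3
  · nlinarith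
  · linarith

/-- Near `a` the function is above the chord from `a` to `a + v`. -/
theorem chord_prop (hm : MonotoneOn P (Icc w W)) (h : Pth P w W) {a v : ℝ} (ha : w ≤ a)
    (hv : 0 < v) (hW : a + v ≤ W) : ∃ δ : ℝ, 0 < δ ∧ δ ≤ v ∧ ∀ u, 0 ≤ u → u ≤ δ →
      (P (a + v) - P a) / v * u ≤ P (a + u) - P a := by
  have hmon : ∀ s t, 0 ≤ s → s ≤ t → t ≤ v → P (a + s) ≤ P (a + t) := fun s t hs hst ht =>
    hm ⟨by linarith, by linarith⟩ ⟨by linarith, by linarith⟩ (by linarith)
  have h0 : 0 ≤ P (a + v) - P a := by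
    have := hmon 0 v le_rfl hv.le le_rfl
    simp only [add_zero] at this
    linarith
  rcases h0.eq_or_lt with h1 | h1
  · refine ⟨v, hv, le_rfl, fun u hu huv => ?_⟩
    rw [← h1, zero_div, zero_mul]
    have := hmon 0 u le_rfl hu huv
    simp only [add_zero] at this
    linarith
  · obtain ⟨r, hr⟩ : ∃ r, r = (P (a + v) - P a) / v := ⟨_, rfl⟩
    have hr0 : 0 < r := by rw [hr]; exact div_pos h1 hv
    have hrv : r * v = P (a + v) - P a := by rw [hr]; field_simp
    obtain ⟨k, hk1, hk2⟩ : ∃ k : ℕ, (k : ℝ) < r ∧ r ≤ k + 1 := by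
      refine ⟨⌈r⌉₊ - 1, ?_, ?_⟩
      · have hc : 1 ≤ ⌈r⌉₊ := Nat.one_le_iff_ne_zero.2 (by
          intro hcc
          rw [Nat.ceil_eq_zero] at hcc
          linarith)
        have := Nat.ceil_lt_add_one hr0.le
        rw [Nat.cast_sub hc]
        push_cast
        linarith
      · have hc : 1 ≤ ⌈r⌉₊ := Nat.one_le_iff_ne_zero.2 (by
          intro hcc
          rw [Nat.ceil_eq_zero] at hcc
          linarith)
        have := Nat.le_ceil r
        rw [Nat.cast_sub hc]
        push_cast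
        linarith
    have hkv : k * v < P (a + v) - P a := by
      rw [← hrv]
      exact mul_lt_mul_of_pos_right hk1 hv
    refine ⟨min v (P (a + v) - P a - k * v), lt_min hv (by linarith), min_le_left _ _,
      fun u hu huδ => ?_⟩
    have h2 := slope_prop hm h ha hv.le hW hkv hu (huδ.trans (min_le_left _ _))
      (huδ.trans (min_le_right _ _))
    rw [← hr]
    refine le_trans ?_ h2
    exact mul_le_mul_of_nonneg_right hk2 hu

/-- **Concavity.** -/
theorem concave (hm : MonotoneOn P (Icc w W)) (h : Pth P w W) {a b c : ℝ} (ha : w ≤ a)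
    (hab : a ≤ b) (hbc : b ≤ c) (hc : c ≤ W) :
    (P c - P a) * (b - a) ≤ (P b - P a) * (c - a) := by
  rcases hab.eq_or_lt with h1 | hab'
  · rw [h1]; simp
  rcases hbc.eq_or_lt with h1 | hbc'
  · rw [h1]
  have hac : 0 < c - a := by linarith
  by_contra hcon
  push Not at hcon
  obtain ⟨m, hmdef⟩ : ∃ m, m = (P c - P a) / (c - a) := ⟨_, rfl⟩
  have hmc : m * (c - a) = P c - P a := by rw [hmdef]; field_simp
  obtain ⟨S, hS⟩ : ∃ S : Set ℝ, S = {x | a ≤ x ∧ x ≤ b ∧ P a + m * (x - a) ≤ P x} := ⟨_, rfl⟩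
  have haS : a ∈ S := by
    rw [hS]
    refine ⟨le_rfl, hab, ?_⟩
    simp
  have hSb : BddAbove S := ⟨b, fun x hx => by rw [hS] at hx; exact hx.2.1⟩
  obtain ⟨s, hs⟩ : ∃ s, s = sSup S := ⟨_, rfl⟩
  have has : a ≤ s := by rw [hs]; exact le_csSup hSb haS
  have hsb : s ≤ b := by
    rw [hs]
    exact csSup_le ⟨a, haS⟩ fun x hx => by rw [hS] at hx; exact hx.2.1
  -- the slope is nonnegative
  have hm0 : 0 ≤ m := by
    rw [hmdef]
    refine div_nonneg ?_ hac.le
    have := hm (a := a) (b := c) ⟨ha, by linarith⟩ ⟨by linarith, hc⟩ (by linarith)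
    linarith
  have hPs : P a + m * (s - a) ≤ P s := by
    refine le_of_forall_pos_lt_add fun ε hε => ?_
    obtain ⟨x, hx, hxs⟩ : ∃ x ∈ S, s - ε / (m + 1) < x := by
      rw [hs]
      refine exists_lt_of_lt_csSup ⟨a, haS⟩ ?_
      have : 0 < ε / (m + 1) := by positivity
      linarith
    have hxs' : x ≤ s := by rw [hs]; exact le_csSup hSb hx
    rw [hS] at hx
    have h2 : P x ≤ P s := hm ⟨by linarith [hx.1], by linarith⟩ ⟨by linarith, by linarith⟩ hxs'
    have h3 : m * (s - x) ≤ m * (ε / (m + 1)) := mul_le_mul_of_nonneg_left (by linarith) hm0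
    have h4 : m * (ε / (m + 1)) < ε := by
      have : m * (ε / (m + 1)) = ε * (m / (m + 1)) := by field_simp
      rw [this]
      have h5 : m / (m + 1) < 1 := by
        rw [div_lt_one (by linarith)]
        linarith
      nlinarith
    have h6 := hx.2.2
    nlinarith
  have hsb' : s < b := by
    rcases hsb.eq_or_lt with h2 | h2
    · exfalso
      rw [h2] at hPs
      have : m * (b - a) * (c - a) = (P c - P a) * (b - a) := by
        rw [← hmc]; ring
      nlinarith
    · exact h2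
  obtain ⟨δ, hδ, hδv, hch⟩ := chord_prop hm h (a := s) (v := c - s) (by linarith) (by linarith)
    (by linarith)
  have e0 : s + (c - s) = c := by ring
  rw [e0] at hch
  obtain ⟨u, hu⟩ : ∃ u, u = min δ (b - s) := ⟨_, rfl⟩
  have hu0 : 0 < u := by rw [hu]; exact lt_min hδ (by linarith)
  have h2 := hch u hu0.le (by rw [hu]; exact min_le_left _ _)
  have hub : s + u ≤ b := by
    have : u ≤ b - s := by rw [hu]; exact min_le_right _ _
    linarith
  have h3 : s + u ∈ S := by
    rw [hS]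
    refine ⟨by linarith, hub, ?_⟩
    -- the chord from `s` is above the chord from `a`
    have hcs : 0 < c - s := by linarith
    obtain ⟨m', hm'⟩ : ∃ m', m' = (P c - P s) / (c - s) := ⟨_, rfl⟩
    have hm'c : m' * (c - s) = P c - P s := by rw [hm']; field_simp
    rw [← hm'] at h2
    -- `P s + m' u - (P a + m (s + u - a)) = (P s - (P a + m (s-a))) (1 - u / (c - s))`
    have h4 : 0 ≤ (P s - (P a + m * (s - a))) * ((c - s) - u) :=
      mul_nonneg (by linarith) (by linarith)
    have h5 : (P s + m' * u - (P a + m * (s + u - a))) * (c - s) =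
        (P s - (P a + m * (s - a))) * ((c - s) - u) := by
      have : m' * u * (c - s) = u * (P c - P s) := by rw [← hm'c]; ring
      have h7 : P c = P a + m * (c - a) := by rw [hmc]; ring
      calc _ = P s * (c - s) + m' * u * (c - s) - (P a + m * (s + u - a)) * (c - s) := by ring
        _ = _ := by rw [this, h7]; ring
    have h6 : 0 ≤ P s + m' * u - (P a + m * (s + u - a)) := by
      by_contra hc2
      push Not at hc2
      have : (P s + m' * u - (P a + m * (s + u - a))) * (c - s) < 0 := mul_neg_of_neg_of_pos hc2 hcs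
      linarith
    linarith
  have h4 : s + u ≤ s := by
    conv_rhs => rw [hs]
    exact le_csSup hSb h3
  linarith

theorem concaveOn (hm : MonotoneOn P (Icc w W)) (h : Pth P w W) : ConcaveOn ℝ (Icc w W) P := by
  refine concaveOn_of_slope_anti_adjacent (convex_Icc w W) ?_
  intro x y z hx hz hxy hyz
  have h1 := concave hm h hx.1 hxy.le hyz.le hz.2
  rw [div_le_div_iff₀ (by linarith) (by linarith)]
  nlinarith

/-- At a point where the function is differentiable, the derivative is a natural number. -/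
theorem deriv_nat (hm : MonotoneOn P (Icc w W)) (h : Pth P w W) {a D : ℝ} (ha : w < a)
    (haW : a < W) (hD : HasDerivAt P D a) : ∃ n : ℕ, D = n := by
  -- right difference quotients
  have hlim : Filter.Tendsto (fun u : ℝ => (P (a + u) - P a) / u) (nhdsWithin 0 (Ioi 0))
      (nhds D) := by
    have h1 := hasDerivAt_iff_tendsto_slope_zero.1 hD
    have h2 : Filter.Tendsto (fun u : ℝ => u⁻¹ • (P (a + u) - P a)) (nhdsWithin 0 (Ioi 0))
        (nhds D) := h1.mono_left (nhdsWithin_mono _ fun x hx => ne_of_gt hx)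
    refine h2.congr fun u => ?_
    rw [smul_eq_mul, div_eq_inv_mul]
  have hD0 : 0 ≤ D := by
    refine ge_of_tendsto hlim ?_
    have hev : ∀ᶠ u in nhdsWithin (0 : ℝ) (Ioi 0), u ∈ Ioo (0 : ℝ) (W - a) :=
      Ioo_mem_nhdsGT (by linarith)
    filter_upwards [hev] with u hu
    refine div_nonneg ?_ hu.1.le
    have := hm (a := a) (b := a + u) ⟨ha.le, haW.le⟩ ⟨by linarith [hu.1], by linarith [hu.2]⟩
      (by linarith [hu.1])
    linarith
  rcases hD0.eq_or_lt with h0 | h0
  · exact ⟨0, by simp [← h0]⟩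
  obtain ⟨k, hk1, hk2⟩ : ∃ k : ℕ, (k : ℝ) < D ∧ D ≤ k + 1 := by
    have hc : 1 ≤ ⌈D⌉₊ := Nat.one_le_iff_ne_zero.2 (by
      intro hcc
      rw [Nat.ceil_eq_zero] at hcc
      linarith)
    refine ⟨⌈D⌉₊ - 1, ?_, ?_⟩
    · have := Nat.ceil_lt_add_one h0.le
      rw [Nat.cast_sub hc]
      push_cast
      linarith
    · have := Nat.le_ceil D
      rw [Nat.cast_sub hc]
      push_cast
      linarith
  refine ⟨k + 1, le_antisymm (by push_cast; exact hk2) ?_⟩
  -- some difference quotient is larger than `k`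
  have hev1 : ∀ᶠ u in nhdsWithin (0 : ℝ) (Ioi 0), (k : ℝ) < (P (a + u) - P a) / u :=
    hlim.eventually (lt_mem_nhds hk1)
  have hev2 : ∀ᶠ u in nhdsWithin (0 : ℝ) (Ioi 0), u ∈ Ioo (0 : ℝ) (W - a) :=
    Ioo_mem_nhdsGT (by linarith)
  obtain ⟨v, hv1, hv2⟩ := (hev1.and hev2).exists
  have hv0 : 0 < v := hv2.1
  have hkv : k * v < P (a + v) - P a := by
    rwa [lt_div_iff₀ hv0] at hv1
  refine ge_of_tendsto hlim ?_
  have hev3 : ∀ᶠ u in nhdsWithin (0 : ℝ) (Ioi 0),
      u ∈ Ioo (0 : ℝ) (min v (P (a + v) - P a - k * v)) :=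
    Ioo_mem_nhdsGT (lt_min hv0 (by linarith))
  filter_upwards [hev3] with u hu
  rw [le_div_iff₀ hu.1]
  have := slope_prop hm h ha.le hv0.le (by linarith [hv2.2]) hkv hu.1.le
    (hu.2.le.trans (min_le_left _ _)) (hu.2.le.trans (min_le_right _ _))
  push_cast
  exact this

/-- Slopes are bounded away from the left end. -/
theorem slope_le (hm : MonotoneOn P (Icc w W)) (h : Pth P w W) {a c : ℝ} (ha : w < a)
    (hac : a ≤ c) (hc : c ≤ W) : P c - P a ≤ (P a - P w) / (a - w) * (c - a) := by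
  have h1 := concave hm h le_rfl ha.le hac hc
  have h2 : 0 < a - w := by linarith
  rw [div_mul_eq_mul_div, le_div_iff₀ h2]
  nlinarith

end Pool.LmC
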